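import Mathlib
import Pool.Agent.Helper684.FL.Basic

set_option autoImplicit false
set_option linter.unusedSectionVars false
set_option linter.style.haveILetI false
set_option linter.unusedVariables false

namespace Pool.Agent.Helper684.FL

variable {R : Type*} [Ring R] [Finite R] [IsLocalRing R]

theorem exists_nilp {a : R} (ha : ¬ IsUnit a) : ∃ n : ℕ, a ^ n = 0 := by
  classical
  have hni : ¬ Function.Injective (fun n : ℕ => a ^ n) := not_injective_infinite_finite _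
  rw [Function.Injective] at hni
  push Not at hni
  obtain ⟨i, j, hij, hne⟩ := hni
  wlog hlt : i < j generalizing i j
  · exact this j i hij.symm (Ne.symm hne) (by omega)
  have hij' : a ^ i = a ^ j := hij
  refine ⟨i, ?_⟩
  have h1 : (1 - a ^ (j - i)) * a ^ i = 0 := by
    rw [sub_mul, one_mul, ← pow_add, Nat.sub_add_cancel hlt.le, ← hij', sub_self]
  have h2 : ¬ IsUnit (a ^ (j - i)) := by
    obtain ⟨d, hd⟩ : ∃ d, j - i = d + 1 := ⟨j - i - 1, by omega⟩
    rw [hd, pow_succ]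
    exact nonunit_mul_left _ ha
  obtain ⟨u, hu⟩ := unit_one_sub h2
  rw [← hu] at h1
  simpa using h1

/-- p is a nonunit -/
theorem p_mem_J {p k : ℕ} (hk : 1 ≤ k) [hc : CharP R (p ^ k)] : ((p : ℕ) : R) ∈ J R := by
  intro h
  have h1 : IsUnit (((p : ℕ) : R) ^ k) := h.pow k
  have h2 : (((p : ℕ) : R) ^ k) = 0 := by
    have := (CharP.cast_eq_zero_iff R (p ^ k) (p ^ k)).mpr (dvd_refl _)
    rw [Nat.cast_pow] at this
    exact this
  rw [h2] at h1
  exact nonunit_zero h1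

theorem exists_lift_aux0 (p : ℕ) [Fact p.Prime] {A : Type*} [AddCommGroup A] {Q : Type*} [AddCommGroup Q]
    [Module (ZMod p) Q] [Finite Q] [Nontrivial Q] (π : A →+ Q) (hπ : Function.Surjective π) :
    ∃ (f : ℕ) (om : Fin f → A), 1 ≤ f ∧
      (∀ r : A, ∃ n : Fin f → ℤ, π (r - ∑ s, n s • om s) = 0) ∧
      (∀ n : Fin f → ℤ, (∃ s, ¬ ((p : ℤ) ∣ n s)) → π (∑ s, n s • om s) ≠ 0) := by
  classical
  haveI : Module.Finite (ZMod p) Q := Module.Finite.of_finite
  have b := Module.finBasis (ZMod p) Q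
  choose lft hlft using hπ
  have hmk : ∀ n : Fin (Module.finrank (ZMod p) Q) → ℤ, π (∑ s, n s • lft (b s))
      = ∑ s, ((n s : ℤ) : ZMod p) • b s := by
    intro n
    rw [map_sum]
    refine Finset.sum_congr rfl fun s _ => ?_
    rw [map_zsmul, Int.cast_smul_eq_zsmul, hlft]
  refine ⟨Module.finrank (ZMod p) Q, fun s => lft (b s), Module.finrank_pos, ?_, ?_⟩
  · intro r
    refine ⟨fun s => ((b.repr (π r) s).val : ℤ), ?_⟩
    rw [map_sub, hmk]
    have h1 : (∑ s, (((((b.repr (π r) s).val : ℕ) : ℤ)) : ZMod p) • b s) = ∑ s, b.repr (π r) s • b s := by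
      refine Finset.sum_congr rfl fun s _ => ?_
      congr 1
      simp
    rw [h1, b.sum_repr, sub_self]
  · intro n hn h0
    rw [hmk] at h0
    obtain ⟨s, hs⟩ := hn
    have := (Fintype.linearIndependent_iff.mp b.linearIndependent) (fun s => ((n s : ℤ) : ZMod p)) h0 s
    exact hs ((ZMod.intCast_zmod_eq_zero_iff_dvd (n s) p).mp this)

theorem exists_lift_aux (p : ℕ) (hp : p.Prime) {A : Type*} [AddCommGroup A] {Q : Type*} [AddCommGroup Q]
    [Finite Q] [Nontrivial Q] (hpQ : ∀ x : Q, p • x = 0) (π : A →+ Q) (hπ : Function.Surjective π) :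
    ∃ (f : ℕ) (om : Fin f → A), 1 ≤ f ∧
      (∀ r : A, ∃ n : Fin f → ℤ, π (r - ∑ s, n s • om s) = 0) ∧
      (∀ n : Fin f → ℤ, (∃ s, ¬ ((p : ℤ) ∣ n s)) → π (∑ s, n s • om s) ≠ 0) := by
  haveI : Fact p.Prime := ⟨hp⟩
  letI : Module (ZMod p) Q := AddCommGroup.zmodModule hpQ
  exact exists_lift_aux0 p π hπ

/-- lifts of a basis of the residue ring -/
theorem exists_lift {p k : ℕ} (hp : p.Prime) (hk : 1 ≤ k) [hc : CharP R (p ^ k)] :
    ∃ (f : ℕ) (om : Fin f → R), 1 ≤ f ∧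
      (∀ r : R, ∃ n : Fin f → ℤ, r - ∑ s, n s • om s ∈ J R) ∧
      (∀ n : Fin f → ℤ, (∃ s, ¬ ((p : ℤ) ∣ n s)) → IsUnit (∑ s, n s • om s)) := by
  classical
  have hpQ : ∀ x : R ⧸ (J R), (p : ℕ) • x = 0 := by
    intro x
    obtain ⟨r, rfl⟩ := Submodule.Quotient.mk_surjective _ x
    rw [← Submodule.Quotient.mk_smul, Submodule.Quotient.mk_eq_zero, nsmul_eq_mul]
    exact J_mul_right r (p_mem_J hk)
  haveI : Finite (R ⧸ (J R)) := Quotient.finite _
  have hnt : Nontrivial (R ⧸ (J R)) := by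
    refine ⟨⟨Submodule.Quotient.mk 1, 0, ?_⟩⟩
    intro h
    rw [Submodule.Quotient.mk_eq_zero] at h
    exact h isUnit_one
  obtain ⟨f, om, hf, h1, h2⟩ := exists_lift_aux p hp hpQ ((J R).mkQ.toAddMonoidHom)
    (Submodule.mkQ_surjective _)
  refine ⟨f, om, hf, ?_, ?_⟩
  · intro r
    obtain ⟨n, hn⟩ := h1 r
    exact ⟨n, (Submodule.Quotient.mk_eq_zero _).mp hn⟩
  · intro n hn
    by_contra hu
    exact h2 n hn ((Submodule.Quotient.mk_eq_zero _).mpr hu)

end Pool.Agent.Helper684.FL
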