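import Mathlib
import Pool.Agent.Helper684.FL.Lift

set_option autoImplicit false
set_option linter.unusedSectionVars false
set_option linter.style.haveILetI false
set_option linter.unusedVariables false

namespace Pool.Agent.Helper684.FL

variable {R : Type*} [Ring R] [Finite R] [IsLocalRing R]

/-- `p^g R ∩ R[p]` -/
def CC (R : Type*) [Ring R] (p g : ℕ) : Submodule R R where
  carrier := {x | (∃ y : R, x = (p ^ g) • y) ∧ p • x = 0}
  add_mem' := by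
    rintro a b ⟨⟨y, hy⟩, ha⟩ ⟨⟨z, hz⟩, hb⟩
    exact ⟨⟨y + z, by rw [smul_add, hy, hz]⟩, by rw [smul_add, ha, hb, add_zero]⟩
  zero_mem' := ⟨⟨0, by simp⟩, by simp⟩
  smul_mem' := by
    rintro c x ⟨⟨y, hy⟩, hx⟩
    refine ⟨⟨c * y, ?_⟩, ?_⟩
    · rw [hy, smul_eq_mul, mul_smul_comm]
    · rw [smul_eq_mul, ← mul_smul_comm, hx, mul_zero]

theorem CC_anti {p g h : ℕ} (hgh : g ≤ h) : CC R p h ≤ CC R p g := by
  rintro x ⟨⟨y, hy⟩, hx⟩
  refine ⟨⟨(p ^ (h - g)) • y, ?_⟩, hx⟩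
  rw [hy, smul_smul, ← pow_add]
  congr 2
  omega

theorem CC_bot {p k : ℕ} [hc : CharP R (p ^ k)] : CC R p k = ⊥ := by
  rw [eq_bot_iff]
  rintro x ⟨⟨y, hy⟩, hx⟩
  rw [Submodule.mem_bot, hy, nsmul_eq_mul]
  have := (CharP.cast_eq_zero_iff R (p ^ k) (p ^ k)).mpr (dvd_refl _)
  rw [this, zero_mul]

theorem step {p k : ℕ} [hc : CharP R (p ^ k)] (F : Submodule R R) (hF : ¬ CC R p 0 ≤ F) :
    ∃ (g : ℕ) (u : R), u ∈ CC R p g ∧ u ∉ F ∧ (∀ j ∈ J R, j * u ∈ F) ∧ CC R p (g + 1) ≤ F := by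
  classical
  have hex : ∃ g, CC R p g ≤ F := ⟨k, by rw [CC_bot]; exact bot_le⟩
  have h0 : Nat.find hex ≠ 0 := by
    intro h
    exact hF (h ▸ Nat.find_spec hex)
  obtain ⟨g, hg⟩ : ∃ g, Nat.find hex = g + 1 := Nat.exists_eq_succ_of_ne_zero h0
  have hg1 : CC R p (g + 1) ≤ F := hg ▸ Nat.find_spec hex
  have hg2 : ¬ CC R p g ≤ F := Nat.find_min hex (by omega)
  have hne : ({u | u ∈ CC R p g ∧ u ∉ F} : Set R).Nonempty := by
    by_contra hcon
    apply hg2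
    intro x hx
    by_contra hxF
    exact hcon ⟨x, hx, hxF⟩
  obtain ⟨u, ⟨hu1, hu2⟩, hmin⟩ := Set.exists_min_image ({u | u ∈ CC R p g ∧ u ∉ F} : Set R)
    (fun u => Nat.card (Submodule.span R {u})) (Set.toFinite _) hne
  refine ⟨g, u, hu1, hu2, ?_, hg1⟩
  intro j hj
  by_contra hju
  have h1 : j * u ∈ CC R p g := (CC R p g).smul_mem j hu1
  have h2 := hmin (j * u) ⟨h1, hju⟩
  have h3 : Submodule.span R {j * u} ≤ Submodule.span R {u} := by
    rw [Submodule.span_singleton_le_iff_mem]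
    exact Submodule.mem_span_singleton.mpr ⟨j, rfl⟩
  have h4 : Submodule.span R {j * u} = Submodule.span R {u} := by
    apply SetLike.coe_injective
    apply Set.eq_of_subset_of_ncard_le (fun x hx => h3 hx) _ (Set.toFinite _)
    simpa [Set.ncard, Nat.card, ENat.card, Set.encard] using h2
  have h5 : u ∈ Submodule.span R {j * u} := by
    rw [h4]; exact Submodule.mem_span_singleton_self u
  obtain ⟨r, hr⟩ := Submodule.mem_span_singleton.mp h5
  have h6 : (1 - r * j) * u = 0 := by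
    rw [sub_mul, one_mul, mul_assoc]
    have : r * (j * u) = u := hr
    rw [this, sub_self]
  obtain ⟨v, hv⟩ := unit_one_sub (nonunit_mul_left r hj)
  rw [← hv] at h6
  have : u = 0 := by simpa using h6
  exact hu2 (this ▸ F.zero_mem)

theorem exists_flag {p k : ℕ} [hc : CharP R (p ^ k)] :
    ∃ (N : ℕ) (Fs : ℕ → Submodule R R) (g : ℕ → ℕ) (e : ℕ → R), Fs 0 = ⊥ ∧
      (∀ n < N, (p ^ (g n + 1)) • e n = 0 ∧ (p ^ (g n)) • e n ∉ Fs n ∧
        (∀ j ∈ J R, j * ((p ^ (g n)) • e n) ∈ Fs n) ∧ CC R p (g n + 1) ≤ Fs n ∧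
        Fs (n + 1) = Fs n ⊔ Submodule.span R {(p ^ (g n)) • e n} ∧
        (p ^ (g n)) • e n ∈ CC R p (g n)) ∧ CC R p 0 ≤ Fs N := by
  classical
  have hstep : ∀ F : Submodule R R, ∃ (g : ℕ) (e : R), ¬ CC R p 0 ≤ F →
      ((p ^ g) • e ∈ CC R p g ∧ (p ^ g) • e ∉ F ∧ (∀ j ∈ J R, j * ((p ^ g) • e) ∈ F) ∧
        CC R p (g + 1) ≤ F) := by
    intro F
    by_cases hF : CC R p 0 ≤ F
    · exact ⟨0, 0, fun h => absurd hF h⟩
    · obtain ⟨g, u, h1, h2, h3, h4⟩ := step (k := k) F hF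
      obtain ⟨⟨y, hy⟩, hpu⟩ := h1
      refine ⟨g, y, fun _ => ?_⟩
      rw [← hy]
      exact ⟨⟨⟨y, hy⟩, hpu⟩, h2, h3, h4⟩
  choose gg ee hge using hstep
  let Fs : ℕ → Submodule R R := fun n => Nat.rec ⊥
    (fun _ F => F ⊔ Submodule.span R {(p ^ (gg F)) • ee F}) n
  have hFs : ∀ n, Fs (n + 1) = Fs n ⊔ Submodule.span R {(p ^ (gg (Fs n))) • ee (Fs n)} := fun n => rfl
  have hex : ∃ n, CC R p 0 ≤ Fs n := by
    by_contra hcon
    push Not at hcon
    have hmono : StrictMono Fs := by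
      refine strictMono_nat_of_lt_succ fun n => ?_
      rw [hFs]
      refine lt_of_le_of_ne le_sup_left fun heq => ?_
      have h := (hge (Fs n) (hcon n)).2.1
      apply h
      have : (p ^ (gg (Fs n))) • ee (Fs n) ∈ Fs n ⊔ Submodule.span R {(p ^ (gg (Fs n))) • ee (Fs n)} :=
        Submodule.mem_sup_right (Submodule.mem_span_singleton_self _)
      rwa [← heq] at this
    exact not_injective_infinite_finite Fs hmono.injective
  obtain ⟨N, hN, hmin⟩ : ∃ N, CC R p 0 ≤ Fs N ∧ ∀ n < N, ¬ CC R p 0 ≤ Fs n := by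
    have hdec : DecidablePred (fun n => CC R p 0 ≤ Fs n) := Classical.decPred _
    exact ⟨@Nat.find _ hdec hex, @Nat.find_spec _ hdec hex, fun n hn => @Nat.find_min _ hdec hex n hn⟩
  refine ⟨N, Fs, fun n => gg (Fs n), fun n => ee (Fs n), rfl, ?_, hN⟩
  intro n hn
  obtain ⟨h1, h2, h3, h4⟩ := hge (Fs n) (hmin n hn)
  refine ⟨?_, h2, h3, h4, rfl, h1⟩
  rw [pow_succ, mul_comm, mul_smul]
  exact h1.2

end Pool.Agent.Helper684.FL
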