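import Mathlib
import Pool.Agent.Helper684.FL.ThmI

set_option autoImplicit false
set_option linter.unusedSectionVars false
set_option linter.style.haveILetI false
set_option linter.unusedVariables false

namespace Pool.Agent.Helper684.FL

open Matrix Kronecker

section W

variable {m : ℕ} {kk : Fin (m + 1) → ℕ}

theorem w_self (a : Fin (m + 1)) : w kk a a = 1 := by simp [w]

theorem w_tri (hk : Antitone kk) (a b c : Fin (m + 1)) : w kk a c ≤ w kk a b + w kk b c := by
  unfold w
  by_cases h1 : kk a = kk c ∧ c ≤ a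
  · rw [if_pos h1]
    obtain ⟨h1, h2⟩ := h1
    by_cases h3 : kk b = kk a
    · rcases le_or_gt b a with h4 | h4
      · rw [if_pos ⟨h3.symm, h4⟩]; omega
      · rw [if_pos (show kk b = kk c ∧ c ≤ b from ⟨by omega, h2.trans h4.le⟩)]; omega
    · rcases lt_or_gt_of_ne h3 with h4 | h4 <;> omega
  · rw [if_neg h1]; omega

theorem w_le (hk1 : ∀ a, 1 ≤ kk a) (a b : Fin (m + 1)) : w kk a b ≤ kk a := by
  unfold w
  have h1 := hk1 a
  have h2 := hk1 b
  split_ifs with h
  · omega
  · omega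

end W

section Main

variable {R : Type*} [Ring R] {p f m : ℕ} {kk : Fin (m + 1) → ℕ} {e : Fin (m + 1) → Fin f → R}

/-- `r` acts through `(M, d)` -/
def Rel (p : ℕ) (kk : Fin (m + 1) → ℕ) (e : Fin (m + 1) → Fin f → R) (r : R) (M : Matrix (Fin f) (Fin f) ℤ)
    (d : Fin (m + 1) → Fin (m + 1) → Matrix (Fin f) (Fin f) ℤ) : Prop :=
  ∀ b s, r * e b s = ∑ s', M s' s • e b s' + ∑ a, ∑ s', ((p : ℤ) ^ (w kk a b) * d a b s' s) • e a s'

theorem Rel.one : Rel p kk e (1 : R) 1 0 := by
  intro b s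
  simp [Matrix.one_apply]

theorem Rel.add {r r' : R} {M M' : Matrix (Fin f) (Fin f) ℤ}
    {d d' : Fin (m + 1) → Fin (m + 1) → Matrix (Fin f) (Fin f) ℤ} (h : Rel p kk e r M d)
    (h' : Rel p kk e r' M' d') : Rel p kk e (r + r') (M + M') (d + d') := by
  intro b s
  rw [add_mul, h b s, h' b s]
  simp only [Matrix.add_apply, Pi.add_apply, add_smul, mul_add, Finset.sum_add_distrib]
  abel

theorem Rel.neg {r : R} {M : Matrix (Fin f) (Fin f) ℤ}
    {d : Fin (m + 1) → Fin (m + 1) → Matrix (Fin f) (Fin f) ℤ} (h : Rel p kk e r M d) :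
    Rel p kk e (-r) (-M) (-d) := by
  intro b s
  rw [neg_mul, h b s]
  simp only [Matrix.neg_apply, Pi.neg_apply, neg_smul, mul_neg, Finset.sum_neg_distrib, neg_add]

theorem Rel.sub {r r' : R} {M M' : Matrix (Fin f) (Fin f) ℤ}
    {d d' : Fin (m + 1) → Fin (m + 1) → Matrix (Fin f) (Fin f) ℤ} (h : Rel p kk e r M d)
    (h' : Rel p kk e r' M' d') : Rel p kk e (r - r') (M - M') (d - d') := by
  rw [sub_eq_add_neg, sub_eq_add_neg, sub_eq_add_neg]
  exact h.add h'.neg

/-- product of the data -/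
def dmul (p : ℕ) (kk : Fin (m + 1) → ℕ) (M M' : Matrix (Fin f) (Fin f) ℤ)
    (d d' : Fin (m + 1) → Fin (m + 1) → Matrix (Fin f) (Fin f) ℤ) :
    Fin (m + 1) → Fin (m + 1) → Matrix (Fin f) (Fin f) ℤ := fun a b =>
  d a b * M' + M * d' a b + ∑ c, ((p : ℤ) ^ (w kk a c + w kk c b - w kk a b)) • (d a c * d' c b)

theorem Rel.mul (hk : Antitone kk) {r r' : R} {M M' : Matrix (Fin f) (Fin f) ℤ}
    {d d' : Fin (m + 1) → Fin (m + 1) → Matrix (Fin f) (Fin f) ℤ} (h : Rel p kk e r M d)
    (h' : Rel p kk e r' M' d') : Rel p kk e (r * r') (M * M') (dmul p kk M M' d d') := by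
  intro b s
  rw [mul_assoc, h' b s, mul_add, Finset.mul_sum, Finset.mul_sum]
  -- first part
  have h1 : ∑ s', r * (M' s' s • e b s') = ∑ s'', (M * M') s'' s • e b s''
      + ∑ a, ∑ s'', ((p : ℤ) ^ (w kk a b) * (d a b * M') s'' s) • e a s'' := by
    have h2 : ∀ s', r * (M' s' s • e b s') = ∑ s'', (M s'' s' * M' s' s) • e b s''
        + ∑ a, ∑ s'', ((p : ℤ) ^ (w kk a b) * (d a b s'' s' * M' s' s)) • e a s'' := by
      intro s'
      rw [mul_smul_comm, h b s', smul_add, Finset.smul_sum, Finset.smul_sum]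
      congr 1
      · refine Finset.sum_congr rfl fun s'' _ => ?_
        rw [smul_smul, mul_comm]
      · refine Finset.sum_congr rfl fun a _ => ?_
        rw [Finset.smul_sum]
        refine Finset.sum_congr rfl fun s'' _ => ?_
        rw [smul_smul]; congr 1; ring
    rw [Finset.sum_congr rfl fun s' _ => h2 s', Finset.sum_add_distrib]
    congr 1
    · rw [Finset.sum_comm]
      refine Finset.sum_congr rfl fun s'' _ => ?_
      rw [Matrix.mul_apply, Finset.sum_smul]
    · rw [Finset.sum_comm]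
      refine Finset.sum_congr rfl fun a _ => ?_
      rw [Finset.sum_comm]
      refine Finset.sum_congr rfl fun s'' _ => ?_
      rw [Matrix.mul_apply, Finset.mul_sum, Finset.sum_smul]
  have h3 : ∑ c, r * ∑ s', ((p : ℤ) ^ (w kk c b) * d' c b s' s) • e c s'
      = ∑ c, ∑ s'', ((p : ℤ) ^ (w kk c b) * (M * d' c b) s'' s) • e c s''
      + ∑ a, ∑ s'', ((p : ℤ) ^ (w kk a b) *
          (∑ c, ((p : ℤ) ^ (w kk a c + w kk c b - w kk a b)) • (d a c * d' c b)) s'' s) • e a s'' := by
    have h4 : ∀ c, r * ∑ s', ((p : ℤ) ^ (w kk c b) * d' c b s' s) • e c s'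
        = ∑ s'', ((p : ℤ) ^ (w kk c b) * (M * d' c b) s'' s) • e c s''
        + ∑ a, ∑ s'', ((p : ℤ) ^ (w kk a c + w kk c b) * (d a c * d' c b) s'' s) • e a s'' := by
      intro c
      have h2 : ∀ s', r * (((p : ℤ) ^ (w kk c b) * d' c b s' s) • e c s')
          = ∑ s'', ((p : ℤ) ^ (w kk c b) * (M s'' s' * d' c b s' s)) • e c s''
          + ∑ a, ∑ s'', ((p : ℤ) ^ (w kk a c + w kk c b) * (d a c s'' s' * d' c b s' s)) • e a s'' := by
        intro s'
        rw [mul_smul_comm, h c s', smul_add, Finset.smul_sum, Finset.smul_sum]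
        congr 1
        · refine Finset.sum_congr rfl fun s'' _ => ?_
          rw [smul_smul]; congr 1; ring
        · refine Finset.sum_congr rfl fun a _ => ?_
          rw [Finset.smul_sum]
          refine Finset.sum_congr rfl fun s'' _ => ?_
          rw [smul_smul, pow_add]; congr 1; ring
      rw [Finset.mul_sum, Finset.sum_congr rfl fun s' _ => h2 s', Finset.sum_add_distrib]
      congr 1
      · rw [Finset.sum_comm]
        refine Finset.sum_congr rfl fun s'' _ => ?_
        rw [Matrix.mul_apply, Finset.mul_sum, Finset.sum_smul]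
      · rw [Finset.sum_comm]
        refine Finset.sum_congr rfl fun a _ => ?_
        rw [Finset.sum_comm]
        refine Finset.sum_congr rfl fun s'' _ => ?_
        rw [Matrix.mul_apply, Finset.mul_sum, Finset.sum_smul]
    rw [Finset.sum_congr rfl fun c _ => h4 c, Finset.sum_add_distrib]
    congr 1
    rw [Finset.sum_comm]
    refine Finset.sum_congr rfl fun a _ => ?_
    rw [Finset.sum_comm]
    refine Finset.sum_congr rfl fun s'' _ => ?_
    rw [Matrix.sum_apply, Finset.mul_sum, Finset.sum_smul]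
    refine Finset.sum_congr rfl fun c _ => ?_
    congr 1
    rw [Matrix.smul_apply, smul_eq_mul, ← mul_assoc, ← pow_add]
    congr 2
    have := w_tri hk a c b
    omega
  rw [h1, h3, add_assoc]
  congr 1
  rw [← Finset.sum_add_distrib, ← Finset.sum_add_distrib]
  refine Finset.sum_congr rfl fun a _ => ?_
  rw [← Finset.sum_add_distrib, ← Finset.sum_add_distrib]
  refine Finset.sum_congr rfl fun s'' _ => ?_
  rw [← add_smul, ← add_smul]
  congr 1
  simp only [dmul, Matrix.add_apply]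
  ring

variable {K : Type*} [CommRing K] {V : Type*} [Fintype V] [DecidableEq V]
  {X : Fin (m + 1) → Fin (m + 1) → Matrix V V K}

/-- the matrix of `(M, d)` -/
def ZZ (X : Fin (m + 1) → Fin (m + 1) → Matrix V V K) (M : Matrix (Fin f) (Fin f) ℤ)
    (d : Fin (m + 1) → Fin (m + 1) → Matrix (Fin f) (Fin f) ℤ) : Matrix (V × Fin f) (V × Fin f) K :=
  (1 : Matrix V V K) ⊗ₖ (M.map (Int.castRingHom K)) + ∑ a, ∑ b, X a b ⊗ₖ ((d a b).map (Int.castRingHom K))

/-- the relations of Theorem II -/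
structure RelX (p : ℕ) (kk : Fin (m + 1) → ℕ) (X : Fin (m + 1) → Fin (m + 1) → Matrix V V K) : Prop where
  r1a : ∀ a b c d, b ≠ c → X a b * X c d = 0
  r1b : ∀ a b c, X a b * X b c = ((p : K) ^ (w kk a b + w kk b c - w kk a c)) • X a c
  r2 : ∑ a, X a a = (p : K) • (1 : Matrix V V K)
  r3 : ∀ a b, ((p : K) ^ (kk a - w kk a b)) • X a b = 0
  ff : ∀ c : Fin (m + 1) → Fin (m + 1) → ℤ, ∑ a, ∑ b, (c a b : K) • X a b = 0 →
    ∀ a b, (p : ℤ) ^ (kk a - w kk a b) ∣ c a b

theorem ZZ_one : ZZ (f := f) X 1 0 = 1 := by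
  unfold ZZ
  simp [Matrix.map_one]

theorem ZZ_add (M M' : Matrix (Fin f) (Fin f) ℤ) (d d' : Fin (m + 1) → Fin (m + 1) → Matrix (Fin f) (Fin f) ℤ) :
    ZZ X (M + M') (d + d') = ZZ X M d + ZZ X M' d' := by
  unfold ZZ
  simp only [Pi.add_apply, Matrix.map_add _ (map_add (Int.castRingHom K)), Matrix.kronecker_add,
    Finset.sum_add_distrib]
  abel

theorem ZZ_mul (hX : RelX p kk X) (M M' : Matrix (Fin f) (Fin f) ℤ)
    (d d' : Fin (m + 1) → Fin (m + 1) → Matrix (Fin f) (Fin f) ℤ) :
    ZZ X M d * ZZ X M' d' = ZZ X (M * M') (dmul p kk M M' d d') := by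
  unfold ZZ
  rw [add_mul, mul_add, mul_add, ← Matrix.mul_kronecker_mul, one_mul, ← Matrix.map_mul, add_assoc]
  congr 1
  -- expand
  have h1 : (1 : Matrix V V K) ⊗ₖ (M.map (Int.castRingHom K)) *
      ∑ a, ∑ b, X a b ⊗ₖ ((d' a b).map (Int.castRingHom K))
      = ∑ a, ∑ b, X a b ⊗ₖ ((M * d' a b).map (Int.castRingHom K)) := by
    rw [Finset.mul_sum]
    refine Finset.sum_congr rfl fun a _ => ?_
    rw [Finset.mul_sum]
    refine Finset.sum_congr rfl fun b _ => ?_
    rw [← Matrix.mul_kronecker_mul, one_mul, ← Matrix.map_mul]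
  have h2 : (∑ a, ∑ b, X a b ⊗ₖ ((d a b).map (Int.castRingHom K))) *
      (1 : Matrix V V K) ⊗ₖ (M'.map (Int.castRingHom K))
      = ∑ a, ∑ b, X a b ⊗ₖ ((d a b * M').map (Int.castRingHom K)) := by
    rw [Finset.sum_mul]
    refine Finset.sum_congr rfl fun a _ => ?_
    rw [Finset.sum_mul]
    refine Finset.sum_congr rfl fun b _ => ?_
    rw [← Matrix.mul_kronecker_mul, mul_one, ← Matrix.map_mul]
  have h3 : (∑ a, ∑ b, X a b ⊗ₖ ((d a b).map (Int.castRingHom K))) *
      (∑ a, ∑ b, X a b ⊗ₖ ((d' a b).map (Int.castRingHom K)))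
      = ∑ a, ∑ b, X a b ⊗ₖ ((∑ c, ((p : ℤ) ^ (w kk a c + w kk c b - w kk a b)) • (d a c * d' c b)).map
          (Int.castRingHom K)) := by
    rw [Finset.sum_mul]
    refine Finset.sum_congr rfl fun a _ => ?_
    rw [Finset.sum_mul]
    have h4 : ∀ c, X a c ⊗ₖ ((d a c).map (Int.castRingHom K)) *
        (∑ c', ∑ b, X c' b ⊗ₖ ((d' c' b).map (Int.castRingHom K)))
        = ∑ b, X a b ⊗ₖ ((((p : ℤ) ^ (w kk a c + w kk c b - w kk a b)) • (d a c * d' c b)).map
          (Int.castRingHom K)) := by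
      intro c
      rw [Finset.mul_sum, Finset.sum_eq_single c]
      · rw [Finset.mul_sum]
        refine Finset.sum_congr rfl fun b _ => ?_
        rw [← Matrix.mul_kronecker_mul, hX.r1b, ← Matrix.map_mul, Matrix.smul_kronecker,
          ← Matrix.kronecker_smul]
        congr 1
        ext i j
        rw [Matrix.smul_apply, Matrix.map_apply, Matrix.map_apply, Matrix.smul_apply, smul_eq_mul,
          smul_eq_mul, map_mul, map_pow, map_natCast]
      · intro c' _ hc'
        rw [Finset.mul_sum]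
        refine Finset.sum_eq_zero fun b _ => ?_
        rw [← Matrix.mul_kronecker_mul, hX.r1a a c c' b (Ne.symm hc'), Matrix.zero_kronecker]
      · intro h; exact absurd (Finset.mem_univ c) h
    rw [Finset.sum_congr rfl fun c _ => h4 c, Finset.sum_comm]
    refine Finset.sum_congr rfl fun b _ => ?_
    have h5 : (∑ c, ((p : ℤ) ^ (w kk a c + w kk c b - w kk a b)) • (d a c * d' c b)).map
          (Int.castRingHom K) = ∑ c, ((((p : ℤ) ^ (w kk a c + w kk c b - w kk a b)) • (d a c * d' c b)).map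
          (Int.castRingHom K)) := by
      ext i j
      simp [Matrix.map_apply, Matrix.sum_apply]
    rw [h5]
    ext i j
    simp only [Matrix.sum_apply, Matrix.kroneckerMap_apply, Finset.mul_sum]
  rw [h1, h2, h3]
  rw [← Finset.sum_add_distrib, ← Finset.sum_add_distrib]
  refine Finset.sum_congr rfl fun a _ => ?_
  rw [← Finset.sum_add_distrib, ← Finset.sum_add_distrib]
  refine Finset.sum_congr rfl fun b _ => ?_
  rw [← Matrix.kronecker_add, ← Matrix.kronecker_add]
  congr 1
  ext i j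
  simp only [dmul, Matrix.map_apply, Matrix.add_apply, map_add]
  ring

/-- independence of the choices -/
theorem ZZ_zero (hX : RelX p kk X) (hk1 : ∀ a, 1 ≤ kk a)
    (hI2 : ∀ n : Fin (m + 1) → Fin f → ℤ, ∑ a, ∑ s, n a s • e a s = 0 ↔ ∀ a s, (p : ℤ) ^ (kk a) ∣ n a s)
    (hp : p.Prime) (M : Matrix (Fin f) (Fin f) ℤ)
    (d : Fin (m + 1) → Fin (m + 1) → Matrix (Fin f) (Fin f) ℤ) (h : Rel p kk e 0 M d) : ZZ X M d = 0 := by
  classical
  have hp0 : (p : ℤ) ≠ 0 := by exact_mod_cast hp.ne_zero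
  have hcoef : ∀ b s a s', (p : ℤ) ^ (kk a) ∣ (if a = b then M s' s else 0) + (p : ℤ) ^ (w kk a b) * d a b s' s := by
    intro b s
    have h1 : ∑ a, ∑ s', ((if a = b then M s' s else 0) + (p : ℤ) ^ (w kk a b) * d a b s' s) • e a s' = 0 := by
      have h2 := h b s
      rw [zero_mul] at h2
      have h3 : ∑ a, ∑ s', ((if a = b then M s' s else 0) + (p : ℤ) ^ (w kk a b) * d a b s' s) • e a s'
          = ∑ a, ∑ s', (if a = b then M s' s else 0) • e a s'
            + ∑ a, ∑ s', ((p : ℤ) ^ (w kk a b) * d a b s' s) • e a s' := by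
        rw [← Finset.sum_add_distrib]
        refine Finset.sum_congr rfl fun a _ => ?_
        rw [← Finset.sum_add_distrib]
        refine Finset.sum_congr rfl fun s' _ => ?_
        rw [add_smul]
      have h4 : ∑ a, ∑ s', (if a = b then M s' s else 0) • e a s' = ∑ s', M s' s • e b s' := by
        rw [Finset.sum_eq_single b]
        · simp
        · intro a _ hab
          refine Finset.sum_eq_zero fun s' _ => ?_
          rw [if_neg hab, zero_smul]
        · intro hh; exact absurd (Finset.mem_univ b) hh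
      rw [h3, h4]
      exact h2.symm
    exact fun a s' => (hI2 _).mp h1 a s'
  have hoff : ∀ a b, a ≠ b → X a b ⊗ₖ ((d a b).map (Int.castRingHom K)) = 0 := by
    intro a b hab
    ext ⟨i, s'⟩ ⟨j, s⟩
    have h1 := hcoef b s a s'
    rw [if_neg hab, zero_add] at h1
    have h2 : (p : ℤ) ^ (kk a - w kk a b) ∣ d a b s' s := by
      have h3 : (p : ℤ) ^ (kk a) = (p : ℤ) ^ (w kk a b) * (p : ℤ) ^ (kk a - w kk a b) := by
        rw [← pow_add]; congr 1
        have := w_le hk1 a b
        omega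
      rw [h3] at h1
      exact (mul_dvd_mul_iff_left (pow_ne_zero _ hp0)).mp h1
    obtain ⟨q, hq⟩ := h2
    have h4 := congrFun (congrFun (hX.r3 a b) i) j
    rw [Matrix.smul_apply, smul_eq_mul, Matrix.zero_apply] at h4
    rw [Matrix.kroneckerMap_apply, Matrix.map_apply, hq, map_mul, map_pow, map_natCast, Matrix.zero_apply,
      ← mul_assoc, mul_comm (X a b i j), h4, zero_mul]
  -- M is divisible by p
  have hMp : ∀ s' s, ∃ q : ℤ, M s' s = p * q := by
    intro s' s
    have h1 := hcoef 0 s 0 s'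
    rw [if_pos rfl, w_self, pow_one] at h1
    have h2 : (p : ℤ) ∣ (p : ℤ) ^ (kk 0) := dvd_pow_self _ (by have := hk1 0; omega)
    have h3 := h2.trans h1
    exact (dvd_add_left (dvd_mul_right _ _)).mp h3
  choose M' hM' using hMp
  have hdiag : ∀ a, X a a ⊗ₖ (((Matrix.of M') + d a a).map (Int.castRingHom K)) = 0 := by
    intro a
    ext ⟨i, s'⟩ ⟨j, s⟩
    have h1 := hcoef a s a s'
    rw [if_pos rfl, w_self, pow_one, hM', ← mul_add] at h1
    have h2 : (p : ℤ) ^ (kk a - w kk a a) ∣ M' s' s + d a a s' s := by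
      have h3 : (p : ℤ) ^ (kk a) = (p : ℤ) * (p : ℤ) ^ (kk a - w kk a a) := by
        rw [← pow_succ', w_self]; congr 1
        have := hk1 a
        omega
      rw [h3] at h1
      exact (mul_dvd_mul_iff_left hp0).mp h1
    obtain ⟨q, hq⟩ := h2
    have h4 := congrFun (congrFun (hX.r3 a a) i) j
    rw [Matrix.smul_apply, smul_eq_mul, Matrix.zero_apply] at h4
    rw [Matrix.kroneckerMap_apply, Matrix.map_apply, Matrix.add_apply, Matrix.of_apply, hq, map_mul, map_pow,
      map_natCast, Matrix.zero_apply, ← mul_assoc, mul_comm (X a a i j), h4, zero_mul]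
  have hM1 : (1 : Matrix V V K) ⊗ₖ (M.map (Int.castRingHom K))
      = ∑ a, X a a ⊗ₖ ((Matrix.of M').map (Int.castRingHom K)) := by
    ext ⟨i, s'⟩ ⟨j, s⟩
    have h1 := congrFun (congrFun hX.r2 i) j
    rw [Matrix.sum_apply, Matrix.smul_apply, smul_eq_mul] at h1
    rw [Matrix.sum_apply]
    simp only [Matrix.kroneckerMap_apply, Matrix.map_apply, Matrix.of_apply]
    rw [← Finset.sum_mul, h1, hM', map_mul, map_natCast]
    ring
  unfold ZZ
  rw [hM1, ← Finset.sum_add_distrib]
  refine Finset.sum_eq_zero fun a _ => ?_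
  rw [Finset.sum_eq_single a]
  · rw [← Matrix.kronecker_add, ← hdiag a]
    congr 1
    ext i j
    simp only [Matrix.map_apply, Matrix.add_apply, map_add]
  · intro b _ hb
    exact hoff a b (Ne.symm hb)
  · intro h; exact absurd (Finset.mem_univ a) h

end Main

/-- ASSEMBLY -/
theorem assembly {R : Type*} [Ring R] {p f m : ℕ} {kk : Fin (m + 1) → ℕ} {e : Fin (m + 1) → Fin f → R}
    (hp : p.Prime) (hf : 1 ≤ f) (hk : Antitone kk) (hk1 : ∀ a, 1 ≤ kk a)
    (hI1 : ∀ r : R, ∃ n : Fin (m + 1) → Fin f → ℤ, r = ∑ a, ∑ s, n a s • e a s)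
    (hI2 : ∀ n : Fin (m + 1) → Fin f → ℤ, ∑ a, ∑ s, n a s • e a s = 0 ↔ ∀ a s, (p : ℤ) ^ (kk a) ∣ n a s)
    (hI3 : ∀ r : R, ∃ (M : Matrix (Fin f) (Fin f) ℤ) (d : Fin (m + 1) → Fin (m + 1) → Matrix (Fin f) (Fin f) ℤ),
        Rel p kk e r M d ∧ (¬ IsUnit r → M = 0))
    {K : Type*} [CommRing K] [Nontrivial K] {V : Type*} [Fintype V] [DecidableEq V] [Nonempty V]
    {X : Fin (m + 1) → Fin (m + 1) → Matrix V V K} (hX : RelX p kk X) :
    ∃ φ : R →+* Matrix (V × Fin f) (V × Fin f) K, Function.Injective φ := by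
  classical
  choose M d hMd hM0 using hI3
  have huniq : ∀ (r : R) (M1 : Matrix (Fin f) (Fin f) ℤ)
      (d1 : Fin (m + 1) → Fin (m + 1) → Matrix (Fin f) (Fin f) ℤ), Rel p kk e r M1 d1 →
      ZZ X (M r) (d r) = ZZ X M1 d1 := by
    intro r M1 d1 h1
    have h2 : Rel p kk e (0 : R) (M r - M1) (d r - d1) := by
      have := (hMd r).sub h1
      rwa [sub_self] at this
    have h3 := ZZ_zero hX hk1 hI2 hp _ _ h2
    have h4 := ZZ_add (X := X) (M r - M1) M1 (d r - d1) d1
    rw [sub_add_cancel, sub_add_cancel, h3, zero_add] at h4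
    exact h4
  let φ : R →+* Matrix (V × Fin f) (V × Fin f) K :=
    { toFun := fun r => ZZ X (M r) (d r)
      map_one' := by
        rw [huniq 1 1 0 Rel.one, ZZ_one]
      map_mul' := fun r r' => by
        rw [huniq (r * r') _ _ ((hMd r).mul hk (hMd r')), ZZ_mul hX]
      map_zero' := by
        have h0 : Rel p kk e (0 : R) 0 0 := by
          intro b s
          simp
        rw [huniq 0 0 0 h0]
        unfold ZZ
        simp
      map_add' := fun r r' => by
        rw [huniq (r + r') _ _ ((hMd r).add (hMd r')), ZZ_add] }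
  refine ⟨φ, ?_⟩
  rw [injective_iff_map_eq_zero]
  intro r hr
  by_cases hu : IsUnit r
  · exfalso
    obtain ⟨u, rfl⟩ := hu
    have h1 : φ 1 = 0 := by
      rw [← Units.mul_inv u, map_mul, hr, zero_mul]
    rw [map_one] at h1
    obtain ⟨v⟩ := ‹Nonempty V›
    have h2 := congrFun (congrFun h1 (v, ⟨0, hf⟩)) (v, ⟨0, hf⟩)
    simp at h2
  · have hZ : ZZ X (M r) (d r) = 0 := hr
    have hM : M r = 0 := hM0 r hu
    rw [hM] at hZ
    have hdiv : ∀ a b s' s, (p : ℤ) ^ (kk a - w kk a b) ∣ d r a b s' s := by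
      intro a b s' s
      refine hX.ff (fun a b => d r a b s' s) ?_ a b
      ext i j
      have h1 := congrFun (congrFun hZ (i, s')) (j, s)
      unfold ZZ at h1
      simp only [Matrix.add_apply, Matrix.sum_apply, Matrix.kroneckerMap_apply, Matrix.map_apply,
        Matrix.zero_apply, map_zero, mul_zero, zero_add] at h1
      simp only [Matrix.sum_apply, Matrix.smul_apply, smul_eq_mul, Matrix.zero_apply]
      rw [← h1]
      refine Finset.sum_congr rfl fun a _ => Finset.sum_congr rfl fun b _ => ?_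
      rw [mul_comm]
      rfl
    have hkill : ∀ a s, ((p : ℤ) ^ (kk a)) • e a s = 0 := by
      intro a s
      have h1 := (hI2 (fun a' s' => if a' = a ∧ s' = s then (p : ℤ) ^ (kk a) else 0)).mpr (by
        intro a' s'
        by_cases h : a' = a ∧ s' = s
        · rw [if_pos h, h.1]
        · rw [if_neg h]; exact dvd_zero _)
      rw [Finset.sum_eq_single a] at h1
      · rw [Finset.sum_eq_single s] at h1
        · simpa using h1
        · intro s' _ hs'
          rw [if_neg (fun h => hs' h.2), zero_smul]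
        · intro h; exact absurd (Finset.mem_univ s) h
      · intro a' _ ha'
        refine Finset.sum_eq_zero fun s' _ => ?_
        rw [if_neg (fun h => ha' h.1), zero_smul]
      · intro h; exact absurd (Finset.mem_univ a) h
    have hre : ∀ b s, r * e b s = 0 := by
      intro b s
      rw [hMd r b s, hM]
      simp only [Matrix.zero_apply, zero_smul, Finset.sum_const_zero, zero_add]
      refine Finset.sum_eq_zero fun a _ => Finset.sum_eq_zero fun s' _ => ?_
      obtain ⟨q, hq⟩ := hdiv a b s' s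
      have h1 : (p : ℤ) ^ (w kk a b) * d r a b s' s = q * (p : ℤ) ^ (kk a) := by
        rw [hq, ← mul_assoc, ← pow_add]
        have := w_le hk1 a b
        rw [show w kk a b + (kk a - w kk a b) = kk a by omega]
        ring
      rw [h1, mul_smul, hkill, smul_zero]
    obtain ⟨n, hn⟩ := hI1 1
    have : r = r * 1 := (mul_one r).symm
    rw [this, hn, Finset.mul_sum]
    refine Finset.sum_eq_zero fun a _ => ?_
    rw [Finset.mul_sum]
    refine Finset.sum_eq_zero fun s _ => ?_
    rw [mul_smul_comm, hre, smul_zero]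

/-- final reduction to Theorem II -/
theorem main_of_theoremII
    (hII : ∀ (p m : ℕ) (kk : Fin (m + 1) → ℕ), p.Prime → Antitone kk → (∀ a, 1 ≤ kk a) →
      ∃ (K : Type) (_ : CommRing K) (_ : Nontrivial K) (V : Type) (_ : Fintype V) (_ : DecidableEq V)
        (_ : Nonempty V) (X : Fin (m + 1) → Fin (m + 1) → Matrix V V K), RelX p kk X) :
    ∀ (R : Type) [Ring R] [Finite R] [IsLocalRing R],
      ∃ (C : Type) (_ : CommRing C) (n : ℕ) (f : R →+* Matrix (Fin n) (Fin n) C),
        Function.Injective f := by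
  intro R _ _ _
  obtain ⟨p, k, f, m, kk, e, hp, hk, hf, hanti, hk1, hkk0, hc, hI1, hI2, hI3⟩ := theoremI R
  obtain ⟨K, _, _, V, _, _, _, X, hX⟩ := hII p m kk hp hanti hk1
  obtain ⟨φ, hφ⟩ := assembly hp hf hanti hk1 hI1 hI2 hI3 hX
  let ψ : Matrix (V × Fin f) (V × Fin f) K ≃+* Matrix (Fin (Fintype.card (V × Fin f))) (Fin (Fintype.card (V × Fin f))) K :=
    Matrix.reindexRingEquiv K (Fintype.equivFin (V × Fin f))
  exact ⟨K, inferInstance, _, ψ.toRingHom.comp φ, ψ.injective.comp hφ⟩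

end Pool.Agent.Helper684.FL
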